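import Mathlib.FieldTheory.Finite.Extension
import Mathlib.RingTheory.AdjoinRoot
import Mathlib.RingTheory.Polynomial.UniqueFactorization
import Mathlib.Algebra.Field.ZMod
import Mathlib.Tactic.NormNum.Prime
import Mathlib.Tactic.LinearCombination

/-! An irreducible polynomial of degree 103 over the field with 113 elements. -/

namespace Pool.Agent.MP_e0ec03_al.NR

open Polynomial

variable {A : Type*} [CommRing A]

/-- the base of the packed coefficients -/
def B : ℕ := 2097152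

/-- `N` packs `k` coefficients at most `b` of a polynomial with value `y` at `x` -/
def Rep (x : A) (b : ℕ) : ℕ → ℕ → A → Prop
  | 0, N, y => N = 0 ∧ y = 0
  | k + 1, N, y => ∃ c M z, c ≤ b ∧ Rep x b k M z ∧ N = c + B * M ∧ y = (c : A) + x * z

variable {x : A}

lemma Rep.mono {b b' : ℕ} (hb : b ≤ b') : ∀ {k N : ℕ} {y : A}, Rep x b k N y → Rep x b' k N y
  | 0, _, _, h => h
  | _ + 1, _, _, ⟨c, M, z, h1, h2, h3⟩ => ⟨c, M, z, h1.trans hb, h2.mono hb, h3⟩

lemma rep_zero (x : A) (b : ℕ) : ∀ k, Rep x b k 0 0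
  | 0 => ⟨rfl, rfl⟩
  | k + 1 => ⟨0, 0, 0, Nat.zero_le _, rep_zero x b k, by simp, by simp⟩

lemma Rep.add {b b' : ℕ} : ∀ {k N N' : ℕ} {y y' : A}, Rep x b k N y → Rep x b' k N' y' →
    Rep x (b + b') k (N + N') (y + y')
  | 0, _, _, _, _, h, h' => ⟨by rw [h.1, h'.1], by rw [h.2, h'.2, add_zero]⟩
  | _ + 1, _, _, _, _, ⟨c, M, z, h1, h2, h3, h4⟩, ⟨c', M', z', g1, g2, g3, g4⟩ =>
    ⟨c + c', M + M', z + z', Nat.add_le_add h1 g1, h2.add g2, by rw [h3, g3]; ring,
      by rw [h4, g4]; push_cast; ring⟩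

lemma Rep.smul {b : ℕ} (a : ℕ) : ∀ {k N : ℕ} {y : A}, Rep x b k N y →
    Rep x (a * b) k (a * N) (a * y)
  | 0, _, _, h => ⟨by rw [h.1, mul_zero], by rw [h.2, mul_zero]⟩
  | _ + 1, _, _, ⟨c, M, z, h1, h2, h3, h4⟩ =>
    ⟨a * c, a * M, a * z, Nat.mul_le_mul_left a h1, h2.smul a, by rw [h3]; ring,
      by rw [h4]; push_cast; ring⟩

lemma digit {c M N : ℕ} (hc : c < B) (h : N = c + B * M) : N % B = c ∧ N / B = M := by
  subst h
  have hB : 0 < B := by omega
  exact ⟨by rw [Nat.add_mul_mod_self_left, Nat.mod_eq_of_lt hc],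
    by rw [Nat.add_mul_div_left _ _ hB, Nat.div_eq_of_lt hc, zero_add]⟩

lemma Rep.uniq {b : ℕ} (hb : b < B) : ∀ {k N : ℕ} {y y' : A}, Rep x b k N y → Rep x b k N y' →
    y = y'
  | 0, _, _, _, h, h' => h.2.trans h'.2.symm
  | _ + 1, _, _, _, ⟨c, M, z, h1, h2, h3, h4⟩, ⟨c', M', z', g1, g2, g3, g4⟩ => by
    obtain ⟨e1, e2⟩ := digit (lt_of_le_of_lt h1 hb) h3
    obtain ⟨e3, e4⟩ := digit (lt_of_le_of_lt g1 hb) g3
    have e5 : c = c' := e1.symm.trans e3
    have e6 : M = M' := e2.symm.trans e4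
    subst e5 e6
    rw [h4, g4, Rep.uniq hb h2 g2]

lemma Rep.top {b : ℕ} (hb : b < B) : ∀ {k N : ℕ} {y : A}, Rep x b (k + 1) N y →
    ∃ z, Rep x b k (N % B ^ k) z ∧ y = z + ((N / B ^ k : ℕ) : A) * x ^ k
  | 0, _, _, ⟨c, M, z, _, h2, h3, h4⟩ => by
    refine ⟨0, ⟨by simp [Nat.mod_one], rfl⟩, ?_⟩
    rw [h4, h3, h2.1, h2.2]
    simp
  | k + 1, N, _, ⟨c, M, z, h1, h2, h3, h4⟩ => by
    obtain ⟨e1, e2⟩ := digit (lt_of_le_of_lt h1 hb) h3
    obtain ⟨w, g1, g2⟩ := Rep.top hb h2
    refine ⟨c + x * w, ⟨c, M % B ^ k, w, h1, g1, ?_, rfl⟩, ?_⟩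
    · rw [pow_succ', Nat.mod_mul, e1, e2]
    · rw [h4, g2, pow_succ' B, ← Nat.div_div_eq_div_mul, e2]
      ring

/-- evaluate the number first -/
def force {β : Type} (n : ℕ) (k : ℕ → β) : β := Nat.rec (k 0) (fun m _ => k (Nat.succ m)) n

lemma force_eq {β : Type} (n : ℕ) (k : ℕ → β) : force n k = k n := by cases n <;> rfl

/-- reduce the coefficients -/
def red : ℕ → ℕ → ℕ := fun k =>
  Nat.rec (fun _ => 0) (fun _ ih N => N % B % 113 + B * force (N / B) ih) k

lemma cast_mod (h : ((113 : ℕ) : A) = 0) (c : ℕ) : ((c % 113 : ℕ) : A) = c := by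
  conv_rhs => rw [← Nat.mod_add_div c 113]
  rw [Nat.cast_add, Nat.cast_mul, h, zero_mul, add_zero]

lemma Rep.red (h : ((113 : ℕ) : A) = 0) {b : ℕ} (hb : b < B) :
    ∀ {k N : ℕ} {y : A}, Rep x b k N y → Rep x 112 k (red k N) y
  | 0, _, _, g => ⟨rfl, g.2⟩
  | k + 1, N, _, ⟨c, M, z, h1, h2, h3, h4⟩ => by
    obtain ⟨e1, e2⟩ := digit (lt_of_le_of_lt h1 hb) h3
    refine ⟨c % 113, NR.red k M, z, by omega, Rep.red h hb h2, ?_, by rw [cast_mod h, h4]⟩
    change N % B % 113 + B * force (N / B) (NR.red k) = _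
    rw [force_eq, e1, e2]

/-- multiplication by `x`; `T` is the weight of the top coefficient, `G` packs `x ^ 103` -/
def mulX (T G N : ℕ) : ℕ := B * (N % T) + N / T % 113 * G

lemma Rep.mulX (h : ((113 : ℕ) : A) = 0) {G b N : ℕ} {y : A} (hG : Rep x 112 103 G (x ^ 103))
    (hb : b < B) (hN : Rep x b 103 N y) :
    Rep x (b + 12544) 103 (mulX (B ^ 102) G N) (x * y) := by
  obtain ⟨z, g1, g2⟩ := hN.top hb
  have h1 : Rep x b 103 (B * (N % B ^ 102)) (x * z) :=
    ⟨0, _, z, Nat.zero_le _, g1, by simp, by simp⟩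
  have h2 := (hG.smul (N / B ^ 102 % 113)).mono
    (show N / B ^ 102 % 113 * 112 ≤ 12544 by omega)
  have h3 := h1.add h2
  rw [cast_mod h] at h3
  have e : x * y = x * z + ((N / B ^ 102 : ℕ) : A) * x ^ 103 := by
    rw [g2]
    ring
  rw [e]
  exact h3

/-- iteration that evaluates each value -/
def iter (f : ℕ → ℕ) : ℕ → ℕ → ℕ := fun k =>
  Nat.rec (fun N => N) (fun _ ih N => force (f N) ih) k

lemma iter_succ (f : ℕ → ℕ) (k N : ℕ) : iter f (k + 1) N = iter f k (f N) := force_eq _ _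

lemma Rep.iterX (h : ((113 : ℕ) : A) = 0) {G : ℕ} (hG : Rep x 112 103 G (x ^ 103)) :
    ∀ {k b N : ℕ} {y : A}, b + k * 12544 < B → Rep x b 103 N y →
      Rep x (b + k * 12544) 103 (iter (NR.mulX (B ^ 102) G) k N) (x ^ k * y)
  | 0, _, _, _, _, hN => by simpa [iter] using hN
  | k + 1, b, N, y, hb, hN => by
    have h0 : b < B := by omega
    have h1 := Rep.iterX h hG (k := k) (b := b + 12544) (by omega) (Rep.mulX h hG h0 hN)
    rw [iter_succ, show b + (k + 1) * 12544 = b + 12544 + k * 12544 by ring,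
      show x ^ (k + 1) * y = x ^ k * (x * y) by ring]
    exact h1

/-- multiplication by `x ^ 113` -/
def nx (T G R : ℕ) : ℕ := force (iter (mulX T G) 113 R) (red 103)

/-- the rows of the Frobenius matrix -/
def rows (T G : ℕ) : ℕ → ℕ → List ℕ
  | 0, _ => []
  | k + 1, R => R :: rows T G k (nx T G R)

/-- the rows, evaluated one after the other -/
def rowsK (T G : ℕ) (cont : List ℕ → Bool) : ℕ → ℕ → List ℕ → Bool := fun k =>
  Nat.rec (fun _ acc => cont acc) (fun _ ih R acc => force (nx T G R) fun R' => ih R' (R :: acc)) k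

lemma rowsK_eq (T G : ℕ) (cont : List ℕ → Bool) : ∀ (k R : ℕ) (acc : List ℕ),
    rowsK T G cont k R acc = cont ((rows T G k R).reverse ++ acc)
  | 0, _, _ => rfl
  | k + 1, R, acc => by
    have h := rowsK_eq T G cont k (nx T G R) (R :: acc)
    rw [rows, List.reverse_cons, List.append_assoc]
    change force (nx T G R) (fun R' => rowsK T G cont k R' (R :: acc)) = _
    rw [force_eq]
    exact h

/-- the combination of the rows with the packed coefficients -/
def fr : List ℕ → ℕ → ℕ := fun l =>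
  List.rec (fun _ => 0) (fun R _ ih N => N % B * R + force (N / B) ih) l

lemma Rep.fr [CharP A 113] {G : ℕ} (hG : Rep x 112 103 G (x ^ 103)) :
    ∀ {k R N : ℕ} {y w : A}, Rep x 112 103 R w → Rep x 112 k N y →
      Rep x (k * 12544) 103 (fr (rows (B ^ 102) G k R) N) (w * y ^ 113)
  | 0, _, _, _, _, _, hN => by
    rw [hN.2, zero_pow (by omega), mul_zero]
    exact rep_zero x _ _
  | k + 1, R, N, _, w, hR, ⟨c, M, z, h1, h2, h3, h4⟩ => by
    have h : ((113 : ℕ) : A) = 0 := CharP.cast_eq_zero A 113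
    have : Fact (Nat.Prime 113) := ⟨by norm_num⟩
    obtain ⟨e1, e2⟩ := digit (lt_of_le_of_lt h1 (by decide)) h3
    have g1 : Rep x 112 103 (nx (B ^ 102) G R) (x ^ 113 * w) := by
      rw [nx, force_eq]
      exact (Rep.iterX h hG (by decide) hR).red h (by decide)
    have g2 := ((hR.smul c).mono (show c * 112 ≤ 12544 by omega)).add (Rep.fr hG g1 h2)
    have e3 : (c : A) ^ 113 = c := by
      have := map_natCast (frobenius A 113) c
      rwa [frobenius_def] at this
    have e4 : w * ((c : A) + x * z) ^ 113 = c * w + x ^ 113 * w * z ^ 113 := by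
      rw [add_pow_char, e3]
      ring
    rw [h4, e4, show (k + 1) * 12544 = 12544 + k * 12544 by ring]
    change Rep x _ 103 (N % B * R + force (N / B) (NR.fr (rows (B ^ 102) G k (nx (B ^ 102) G R)))) _
    rw [force_eq, e1, e2]
    exact g2

/-- the check that the Frobenius map has order dividing 103 -/
def run (T G : ℕ) : Bool :=
  rowsK T G (fun Rs => Nat.beq (iter (fun N => force (fr Rs.reverse N) (red 103)) 103 B) B) 103 1 []

lemma pow_eq_of_run [CharP A 113] {G : ℕ} (hG : Rep x 112 103 G (x ^ 103))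
    (hr : run (B ^ 102) G = true) : x ^ 113 ^ 103 = x := by
  have h : ((113 : ℕ) : A) = 0 := CharP.cast_eq_zero A 113
  have h1 : Rep x 112 103 1 1 := ⟨1, 0, 0, by omega, rep_zero x _ _, by simp, by simp⟩
  have hx : Rep x 112 103 B x :=
    ⟨0, 1, 1, by omega, ⟨1, 0, 0, by omega, rep_zero x _ _, by simp, by simp⟩, by simp, by simp⟩
  have key : ∀ (k N : ℕ) (y : A), Rep x 112 103 N y → Rep x 112 103
      (iter (fun N => force (fr (rows (B ^ 102) G 103 1) N) (red 103)) k N) (y ^ 113 ^ k) := by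
    intro k
    induction k with
    | zero => intro N y hN; simpa [iter] using hN
    | succ k ih =>
      intro N y hN
      rw [iter_succ, force_eq, pow_succ' 113, pow_mul]
      refine ih _ _ ?_
      have := (Rep.fr hG h1 hN).red h (by decide)
      rwa [one_mul] at this
  rw [run, rowsK_eq, List.append_nil, List.reverse_reverse, Nat.beq_eq] at hr
  have h2 := key 103 B x hx
  rw [hr] at h2
  exact h2.uniq (by decide) hx

/-- the value of a list of coefficients, constant one first -/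
def ev (x : A) (l : List ℕ) : A := l.foldr (fun (c : ℕ) (s : A) => (c : A) + x * s) 0

/-- the packed list -/
def pack (l : List ℕ) : ℕ := l.foldr (fun c s => c + B * s) 0

lemma rep_pack (x : A) (b : ℕ) : ∀ l : List ℕ, (∀ c ∈ l, c ≤ b) →
    Rep x b l.length (pack l) (ev x l)
  | [], _ => ⟨rfl, rfl⟩
  | c :: l, h => ⟨c, pack l, ev x l, h c (by simp),
      rep_pack x b l fun d hd => h d (by simp [hd]), rfl, rfl⟩

/-- Horner scheme, leading coefficient first -/
def hz (x : A) (l : List ℤ) (s : A) : A := l.foldl (fun (s : A) (c : ℤ) => s * x + (c : A)) s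

lemma map_hz {A' : Type*} [CommRing A'] (φ : A →+* A') (x : A) : ∀ (l : List ℤ) (s : A),
    φ (hz x l s) = hz (φ x) l (φ s)
  | [], _ => rfl
  | c :: l, s => by
    have := map_hz φ x l (s * x + (c : A))
    simpa [hz] using this

lemma hz_monic [Nontrivial A] : ∀ (l : List ℤ) (s : A[X]), s.Monic →
    (hz X l s).Monic ∧ (hz X l s).natDegree = s.natDegree + l.length
  | [], _, h => ⟨h, rfl⟩
  | c :: l, s, h => by
    have h1 : (s * X).Monic := h.mul monic_X
    have h2 : (s * X).natDegree = s.natDegree + 1 := by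
      rw [h.natDegree_mul monic_X, natDegree_X]
    have h3 : (c : A[X]).natDegree < (s * X).natDegree := by
      rw [natDegree_intCast, h2]
      omega
    obtain ⟨g1, g2⟩ := hz_monic l (s * X + (c : A[X])) (h1.add_of_left (degree_lt_degree h3))
    refine ⟨g1, g2.trans ?_⟩
    rw [natDegree_add_eq_left_of_natDegree_lt h3, h2, List.length_cons]
    omega

/-- the negated coefficients, leading one first -/
def ng (l : List ℕ) : List ℤ := l.reverse.map fun c : ℕ => -(c : ℤ)

lemma hz_ng (x : A) (s : A) : ∀ l : List ℕ, hz x (ng l) s = s * x ^ l.length - ev x l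
  | [] => by simp [hz, ng, ev]
  | c :: l => by
    have := hz_ng x s l
    simp only [hz, ng, ev, List.reverse_cons, List.map_append, List.foldl_append, List.map_cons,
      List.map_nil, List.foldl_cons, List.foldl_nil, List.foldr_cons, List.length_cons] at this ⊢
    rw [this]
    push_cast
    ring

/-- the coefficients of `x ^ 103` modulo the polynomial -/
def gl : List ℕ := [27, 55, 62, 74, 54, 26, 47, 75, 56, 38, 63, 65, 64, 44, 12, 51, 98, 79, 74, 40,
  46, 23, 82, 110, 79, 74, 82, 75, 20, 67, 44, 17, 97, 75, 85, 26, 12, 33, 30, 45, 52, 30, 41, 31,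
  85, 45, 35, 38, 45, 65, 58, 87, 65, 37, 81, 73, 20, 29, 57, 16, 93, 52, 37, 56, 34, 62, 25, 109,
  25, 14, 73, 104, 3, 43, 11, 106, 93, 27, 103, 98, 69, 63, 62, 105, 88, 60, 106, 89, 40, 19, 86,
  56, 84, 112, 8, 8, 105, 21, 37, 12, 28, 75, 83]

lemma run_gl : force (B ^ 102) (fun T => force (pack gl) fun G => run T G) = true := by
  decide +kernel

lemma gl_le : ∀ c ∈ gl, c ≤ 112 := by decide +kernel

lemma gl_root : ∀ t ∈ List.range 113, hz (t : ℤ) (ng gl) 1 % 113 ≠ 0 := by decide +kernel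

instance : Fact (Nat.Prime 113) := ⟨by norm_num⟩

/-- the factor of degree 103 -/
noncomputable def ff : (ZMod 113)[X] := hz X (ng gl) 1

lemma ff_monic : ff.Monic ∧ ff.natDegree = 103 := by
  obtain ⟨h1, h2⟩ := hz_monic (A := ZMod 113) (ng gl) 1 monic_one
  refine ⟨h1, h2.trans ?_⟩
  rw [natDegree_one]
  decide +kernel

lemma ff_eval (t : ZMod 113) : ff.eval t ≠ 0 := by
  intro h
  refine gl_root t.val (List.mem_range.2 (ZMod.val_lt t)) ?_
  have h1 := map_hz (evalRingHom t) X (ng gl) 1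
  have h2 := map_hz (Int.castRingHom (ZMod 113)) (t.val : ℤ) (ng gl) 1
  simp only [coe_evalRingHom, eval_X, eval_one] at h1
  rw [map_one, map_natCast, ZMod.natCast_zmod_val, eq_intCast] at h2
  rw [← h1] at h2
  have h3 := (ZMod.intCast_zmod_eq_zero_iff_dvd _ 113).1 (h2.trans h)
  exact Int.emod_eq_zero_of_dvd h3

theorem ff_irreducible : Irreducible ff := by
  obtain ⟨g, hg, hd⟩ := exists_irreducible_of_natDegree_pos (f := ff) (by rw [ff_monic.2]; omega)
  have : Fact (Irreducible g) := ⟨hg⟩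
  have : CharP (AdjoinRoot g) 113 :=
    charP_of_injective_algebraMap (algebraMap (ZMod 113) (AdjoinRoot g)).injective 113
  have h0 : AdjoinRoot.mk g ff = 0 := AdjoinRoot.mk_eq_zero.2 hd
  rw [ff, map_hz, map_one, AdjoinRoot.mk_X, hz_ng, one_mul, sub_eq_zero] at h0
  have h1 := rep_pack (AdjoinRoot.root g) 112 gl gl_le
  rw [← h0] at h1
  have hr := run_gl
  rw [force_eq, force_eq] at hr
  have h2 := pow_eq_of_run (x := AdjoinRoot.root g) h1 hr
  have h3 : g ∣ X ^ Nat.card (ZMod 113) ^ 103 - X := by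
    rw [← AdjoinRoot.mk_eq_zero, map_sub, map_pow, AdjoinRoot.mk_X, Nat.card_zmod, h2, sub_self]
  rcases (Nat.dvd_prime (by norm_num)).1 (hg.natDegree_dvd_of_dvd_X_pow_card_pow_sub_X h3) with
    h4 | h4
  · obtain ⟨t, ht⟩ := exists_root_of_degree_eq_one
      ((degree_eq_iff_natDegree_eq_of_pos Nat.one_pos).2 h4)
    exact absurd (ht.dvd hd) (ff_eval t)
  · exact (associated_of_dvd_of_natDegree_le hd ff_monic.1.ne_zero
      (by rw [ff_monic.2, h4])).irreducible hg

end Pool.Agent.MP_e0ec03_al.NR
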