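import Mathlib.FieldTheory.Minpoly.IsIntegrallyClosed
import Mathlib.Data.Real.Basic
import Mathlib.RingTheory.Int.Basic
import Mathlib.Algebra.GCDMonoid.IntegrallyClosed
import Mathlib.Algebra.Order.Archimedean.Real.Basic
import Pool.Agent.MP_e0ec03_al.nr.Rabin
import Pool.Agent.MP_e0ec03_al.Poly39

/-! The root of the polynomial of degree 104 between 2 and 3 is not an algebraic integer. -/

namespace Pool.Agent.MP_e0ec03_al.NR

open Polynomial

variable {A : Type*} [CommRing A]

/-- comparison of the coefficients with those of `8 (X - 29) f` modulo 113 -/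
def chkF : List ℤ → List ℤ → ℤ → Bool
  | [c], [], v => (c + 232 * v) % 113 == 0
  | c :: l, w :: m, v => (c - 8 * w + 232 * v) % 113 == 0 && chkF l m w
  | _, _, _ => false

lemma cast_zero_of_mod (h : ((113 : ℕ) : A) = 0) {c : ℤ} (hc : c % 113 = 0) : (c : A) = 0 := by
  obtain ⟨d, rfl⟩ := Int.dvd_of_emod_eq_zero hc
  have h' : (113 : A) = 0 := by exact_mod_cast h
  push_cast
  rw [h', zero_mul]

lemma hz_chkF (h : ((113 : ℕ) : A) = 0) (x : A) : ∀ (m l : List ℤ) (v : ℤ) (Q : A),
    chkF l m v = true →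
      hz x l (8 * (Q * x + v - 29 * Q)) = 8 * (x - 29) * hz x m (Q * x + v)
  | [], [], _, _, hc => by simp [chkF] at hc
  | [], [c], v, Q, hc => by
    have h1 := cast_zero_of_mod h (by simpa [chkF] using hc : (c + 232 * v) % 113 = 0)
    push_cast at h1
    simp only [hz, List.foldl_cons, List.foldl_nil]
    linear_combination h1
  | [], _ :: _ :: _, _, _, hc => by simp [chkF] at hc
  | _ :: _, [], _, _, hc => by simp [chkF] at hc
  | w :: m, c :: l, v, Q, hc => by
    have hc' : (c - 8 * w + 232 * v) % 113 = 0 ∧ chkF l m w = true := by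
      simpa [chkF] using hc
    have h1 := cast_zero_of_mod h hc'.1
    push_cast at h1
    have h2 := hz_chkF h x m l w (Q * x + v) hc'.2
    have e : 8 * (Q * x + v - 29 * Q) * x + c = 8 * ((Q * x + v) * x + w - 29 * (Q * x + v)) := by
      linear_combination h1
    simp only [hz, List.foldl_cons] at h2 ⊢
    rw [e]
    exact h2

lemma chkF_qz : chkF qz (1 :: ng gl) 0 = true := by decide +kernel

lemma hz_chkF' (h : ((113 : ℕ) : A) = 0) (x : A) (l m : List ℤ) (hc : chkF l (1 :: m) 0 = true) :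
    hz x l 0 = 8 * (x - 29) * hz x m 1 := by
  simpa [hz] using hz_chkF h x _ _ 0 0 hc

set_option maxRecDepth 20000 in
lemma exists_ff : ∃ f : (ZMod 113)[X], Irreducible f ∧ f.Monic ∧ f.natDegree = 103 ∧
    hz X qz 0 = 8 * (X - 29) * f :=
  ⟨ff, ff_irreducible, ff_monic.1, ff_monic.2,
    hz_chkF' (CharP.cast_eq_zero (ZMod 113)[X] 113) X qz (ng gl) chkF_qz⟩

lemma hz_zero (h : (2 : A) = 0) (x : A) : ∀ l : List ℤ, (∀ c ∈ l, c % 2 = 0) → hz x l 0 = 0
  | [], _ => rfl
  | c :: l, hl => by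
    obtain ⟨d, hd⟩ := Int.dvd_of_emod_eq_zero (hl c (by simp))
    have h1 : (c : A) = 0 := by
      rw [hd]
      push_cast
      rw [h, zero_mul]
    have h2 := hz_zero h x l fun d hd => hl d (by simp [hd])
    simpa [hz, h1] using h2

lemma qz_split : qz = qz.take 11 ++ 6420547 :: qz.drop 12 := by decide +kernel

lemma qz_two : (hz (X : (ZMod 2)[X]) qz 0).Monic ∧ (hz (X : (ZMod 2)[X]) qz 0).natDegree = 93 := by
  have h2 : (2 : (ZMod 2)[X]) = 0 := by exact_mod_cast CharP.cast_eq_zero (ZMod 2)[X] 2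
  have h1 : hz (X : (ZMod 2)[X]) (qz.take 11) 0 = 0 := hz_zero h2 _ _ (by decide +kernel)
  have h3 : ((6420547 : ℤ) : (ZMod 2)[X]) = 1 := by
    push_cast
    linear_combination 3210273 * h2
  have h4 : hz (X : (ZMod 2)[X]) qz 0 = hz X (qz.drop 12) 1 := by
    conv_lhs => rw [qz_split]
    rw [hz] at h1
    rw [hz, List.foldl_append, h1, List.foldl_cons, h3, zero_mul, zero_add, hz]
  obtain ⟨g1, g2⟩ := hz_monic (A := ZMod 2) (qz.drop 12) 1 monic_one
  rw [h4]
  refine ⟨g1, g2.trans ?_⟩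
  rw [natDegree_one]
  decide +kernel

lemma map_qz (R : Type*) [CommRing R] :
    (hz (X : ℤ[X]) qz 0).map (Int.castRingHom R) = hz X qz 0 := by
  have := map_hz (mapRingHom (Int.castRingHom R)) X qz 0
  simpa using this

theorem not_isIntegral {w : ℝ} (h2 : 2 < w) (h3 : w < 3) (h : hz w qz 0 = 0) :
    ¬ IsIntegral ℤ w := by
  intro hi
  obtain ⟨f, hf, hf1, hf2, hf3⟩ := exists_ff
  have h0 : aeval w (hz (X : ℤ[X]) qz 0) = 0 := by
    have := map_hz (aeval w : ℤ[X] →ₐ[ℤ] ℝ).toRingHom X qz 0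
    simpa [h] using this
  have hm := minpoly.monic hi
  obtain ⟨r, hr⟩ := minpoly.isIntegrallyClosed_dvd hi h0
  have hle : (minpoly ℤ w).natDegree ≤ 93 := by
    have h1 : (minpoly ℤ w).map (Int.castRingHom (ZMod 2)) ∣ hz X qz 0 := by
      rw [← map_qz, hr, Polynomial.map_mul]
      exact dvd_mul_right _ _
    have := natDegree_le_of_dvd h1 qz_two.1.ne_zero
    rwa [hm.natDegree_map, qz_two.2] at this
  have e : (minpoly ℤ w).map (Int.castRingHom (ZMod 113)) * r.map (Int.castRingHom (ZMod 113)) =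
      8 * (X - 29) * f := by
    rw [← hf3, ← map_qz, hr, Polynomial.map_mul]
  have hm' := hm.map (Int.castRingHom (ZMod 113))
  have hd : f ∣ (minpoly ℤ w).map (Int.castRingHom (ZMod 113)) *
      r.map (Int.castRingHom (ZMod 113)) := by
    rw [e]
    exact Dvd.intro_left _ rfl
  have hp : Prime f := UniqueFactorizationMonoid.irreducible_iff_prime.1 hf
  rcases hp.dvd_or_dvd hd with h1 | ⟨t, ht⟩
  · have := natDegree_le_of_dvd h1 hm'.ne_zero
    rw [hm.natDegree_map, hf2] at this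
    omega
  · have e2 : (minpoly ℤ w).map (Int.castRingHom (ZMod 113)) * t = 8 * (X - 29) := by
      refine mul_right_cancel₀ hf1.ne_zero ?_
      rw [← e, ht]
      ring
    have e3 : (8 * (X - 29) : (ZMod 113)[X]) = C 8 * (X - C 29) := rfl
    have h8 : (8 : ZMod 113) ≠ 0 := by decide
    have h4 : (8 * (X - 29) : (ZMod 113)[X]) ≠ 0 := by
      rw [e3]
      exact mul_ne_zero (C_ne_zero.2 h8) (X_sub_C_ne_zero _)
    have h5 := natDegree_le_of_dvd ⟨t, e2.symm⟩ h4
    rw [hm.natDegree_map, e3, natDegree_C_mul h8, natDegree_X_sub_C] at h5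
    have h6 : (minpoly ℤ w).natDegree = 1 := le_antisymm h5 (minpoly.natDegree_pos hi)
    have h7 := minpoly.aeval ℤ w
    rw [hm.eq_X_add_C h6] at h7
    simp only [map_add, aeval_X, eq_intCast, map_intCast] at h7
    have h9 : (2 : ℝ) < (-(minpoly ℤ w).coeff 0 : ℤ) := by push_cast; linarith
    have h10 : ((-(minpoly ℤ w).coeff 0 : ℤ) : ℝ) < 3 := by push_cast; linarith
    have h11 : (2 : ℤ) < -(minpoly ℤ w).coeff 0 := by exact_mod_cast h9
    have h12 : -(minpoly ℤ w).coeff 0 < (3 : ℤ) := by exact_mod_cast h10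
    omega

end Pool.Agent.MP_e0ec03_al.NR
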