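import Mathlib.Analysis.SpecialFunctions.Pow.Real
import Mathlib.Analysis.Complex.Polynomial.Basic
import Mathlib.LinearAlgebra.Matrix.Charpoly.LinearMap
import Mathlib.RingTheory.PowerSeries.Basic
import Mathlib.RingTheory.IntegralClosure.IsIntegralClosure.Basic
import Mathlib.RingTheory.Noetherian.Basic
import Mathlib.RingTheory.PrincipalIdealDomain

/-! The growth rate of an integer sequence with a rational generating series is an algebraic
integer. -/

namespace Pool.Agent.MP_e0ec03_al.NR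

open Polynomial Filter Topology

/-- `u` is bounded by a multiple of `r ^ n` -/
def Bd (u : ℕ → ℂ) (r : ℝ) : Prop := ∃ C : ℝ, 0 ≤ C ∧ ∀ n, ‖u n‖ ≤ C * r ^ n

/-- `u` has exponential growth rate `w` -/
def Gr (w : ℝ) (u : ℕ → ℂ) : Prop :=
  (∀ r, w < r → Bd u r) ∧ ∀ r, 0 ≤ r → r < w → ¬ Bd u r

lemma no_bound {a b D E : ℝ} (ha : 0 < a) (hab : a < b) (hD : 0 < D) (N : ℕ)
    (h : ∀ k, N ≤ k → D * b ^ k ≤ E * a ^ k) : False := by
  have h1 : 1 < b / a := (one_lt_div ha).2 hab
  obtain ⟨k, hk⟩ := ((tendsto_pow_atTop_atTop_of_one_lt h1).eventually_gt_atTop (E / D)).and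
    (eventually_ge_atTop N) |>.exists
  have h2 := h k hk.2
  have h3 := hk.1
  rw [div_pow, div_lt_div_iff₀ hD (pow_pos ha k)] at h3
  linarith

lemma Gr.step {w : ℝ} {u : ℕ → ℂ} (hw : 0 < w) (h : Gr w u) {l : ℂ} (hl : ‖l‖ ≠ w) :
    Gr w fun n => u (n + 1) - l * u n := by
  refine ⟨fun r hr => ?_, fun r hr0 hr ⟨C, hC, hb⟩ => ?_⟩
  · obtain ⟨C, hC, hb⟩ := h.1 r hr
    have hr0 : 0 < r := hw.trans hr
    refine ⟨C * r + ‖l‖ * C, by positivity, fun n => ?_⟩
    calc ‖u (n + 1) - l * u n‖ ≤ ‖u (n + 1)‖ + ‖l‖ * ‖u n‖ := by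
          rw [← norm_mul]; exact norm_sub_le _ _
      _ ≤ C * r ^ (n + 1) + ‖l‖ * (C * r ^ n) := by gcongr <;> apply hb
      _ = _ := by ring
  · have hL := norm_nonneg l
    rcases lt_or_gt_of_ne hl with hl | hl
    · obtain ⟨s, hs1, hs2⟩ := exists_between (max_lt hr hl)
      have h1 : r < s := lt_of_le_of_lt (le_max_left _ _) hs1
      have h2 : ‖l‖ < s := lt_of_le_of_lt (le_max_right _ _) hs1
      have hs : 0 ≤ s := by linarith
      have hls : 0 < s - ‖l‖ := by linarith
      refine h.2 s hs hs2 ⟨‖u 0‖ + C / (s - ‖l‖), by positivity, fun n => ?_⟩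
      have hD : C = C / (s - ‖l‖) * (s - ‖l‖) := by field_simp
      have hD0 : 0 ≤ C / (s - ‖l‖) := by positivity
      generalize C / (s - ‖l‖) = D at hD hD0
      induction n with
      | zero => simpa using hD0
      | succ n ih =>
        have h3 : ‖u (n + 1)‖ ≤ ‖u (n + 1) - l * u n‖ + ‖l‖ * ‖u n‖ := by
          rw [← norm_mul]
          exact norm_le_norm_sub_add _ _
        have h4 : C * r ^ n ≤ C * s ^ n := by gcongr
        have h5 := mul_le_mul_of_nonneg_left ih hL
        have h6 : 0 ≤ ‖u 0‖ * (s - ‖l‖) * s ^ n := by positivity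
        have h7 := hb n
        rw [hD] at h4 h7
        rw [pow_succ]
        nlinarith
    · obtain ⟨s, hs1, hs2⟩ := exists_between hl
      obtain ⟨E, -, hE⟩ := h.1 s hs1
      have hlr : 0 < ‖l‖ - r := by linarith
      refine h.2 r hr0 hr ⟨C / (‖l‖ - r), by positivity, fun n => ?_⟩
      have hD : C = C / (‖l‖ - r) * (‖l‖ - r) := by field_simp
      have hD0 : 0 ≤ C / (‖l‖ - r) := by positivity
      generalize C / (‖l‖ - r) = D at hD hD0
      by_contra hn
      have key : ∀ k, (‖u n‖ - D * r ^ n) * ‖l‖ ^ k ≤ ‖u (n + k)‖ - D * r ^ (n + k) := by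
        intro k
        induction k with
        | zero => simp
        | succ k ih =>
          have h3 : ‖l‖ * ‖u (n + k)‖ ≤ ‖u (n + k + 1) - l * u (n + k)‖ + ‖u (n + k + 1)‖ := by
            rw [← norm_mul, norm_sub_rev]
            exact norm_le_norm_sub_add _ _
          have h5 := mul_le_mul_of_nonneg_left ih hL
          have h7 := hb (n + k)
          rw [hD] at h7
          rw [← add_assoc, pow_succ, pow_succ]
          nlinarith
      refine no_bound (hw.trans hs1) hs2 (sub_pos.2 (not_le.1 hn)) 0 (E := E * s ^ n)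
        fun k _ => ?_
      have h8 := hE (n + k)
      have h9 : 0 ≤ D * r ^ (n + k) := by positivity
      rw [pow_add] at h8
      linarith [key k]

lemma Gr.shift {w : ℝ} (hw : 0 < w) {u : ℕ → ℂ} (h : Gr w u) : ∀ N, Gr w fun n => u (n + N)
  | 0 => h
  | N + 1 => by
    have := (Gr.shift hw h N).step hw (l := 0) (by simpa using hw.ne)
    simpa [add_assoc, add_comm 1 N] using this

lemma gr_of_tendsto {w : ℝ} {b : ℕ → ℕ} (hw : 0 < w)
    (h : Tendsto (fun n : ℕ => (b n : ℝ) ^ (1 / (n : ℝ))) atTop (𝓝 w)) :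
    Gr w fun n => (b n : ℂ) := by
  have key : ∀ n : ℕ, 1 ≤ n → ((b n : ℝ) ^ (1 / (n : ℝ))) ^ n = b n := fun n hn => by
    rw [one_div]
    exact Real.rpow_inv_natCast_pow (Nat.cast_nonneg _) (by omega)
  refine ⟨fun r hr => ?_, fun r hr0 hr ⟨C, hC, hb⟩ => ?_⟩
  · have hr0 : 0 < r := hw.trans hr
    obtain ⟨N, hN⟩ := eventually_atTop.1 ((h.eventually_lt_const hr).and (eventually_ge_atTop 1))
    have hS : 0 ≤ ∑ i ∈ Finset.range N, (b i : ℝ) / r ^ i := by positivity
    refine ⟨1 + ∑ i ∈ Finset.range N, (b i : ℝ) / r ^ i, by positivity, fun n => ?_⟩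
    rw [Complex.norm_natCast]
    have hp : 0 < r ^ n := pow_pos hr0 n
    rcases lt_or_ge n N with hn | hn
    · have h1 : (b n : ℝ) / r ^ n ≤ ∑ i ∈ Finset.range N, (b i : ℝ) / r ^ i :=
        Finset.single_le_sum (f := fun i => (b i : ℝ) / r ^ i) (fun i _ => by positivity)
          (Finset.mem_range.2 hn)
      rw [div_le_iff₀ hp] at h1
      nlinarith
    · have h1 : (b n : ℝ) ≤ r ^ n := by
        rw [← key n (hN n hn).2]
        exact pow_le_pow_left₀ (by positivity) (hN n hn).1.le n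
      nlinarith
  · obtain ⟨s, hs1, hs2⟩ := exists_between hr
    obtain ⟨t, ht1, ht2⟩ := exists_between hs2
    obtain ⟨N, hN⟩ := eventually_atTop.1 ((h.eventually_const_lt ht2).and (eventually_ge_atTop 1))
    refine no_bound (a := s) (by linarith) ht1 one_pos N (E := C) fun k hk => ?_
    have h1 : t ^ k ≤ b k := by
      rw [← key k (hN k hk).2]
      exact pow_le_pow_left₀ (by linarith) (hN k hk).1.le k
    have h2 := hb k
    rw [Complex.norm_natCast] at h2
    have h3 : C * r ^ k ≤ C * s ^ k := by gcongr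
    linarith

/-- the shift of sequences -/
def sh (R : Type) [CommRing R] : Module.End R (ℕ → R) := LinearMap.funLeft R R Nat.succ

lemma sh_pow (R : Type) [CommRing R] (u : ℕ → R) : ∀ k n, (sh R ^ k) u n = u (n + k)
  | 0, _ => rfl
  | k + 1, n => by
    rw [pow_succ', Module.End.mul_apply]
    exact (sh_pow R u k (n + 1)).trans (by rw [add_assoc, add_comm 1 k])

lemma aeval_sh (R : Type) [CommRing R] (p : R[X]) (u : ℕ → R) (n : ℕ) :
    aeval (sh R) p u n = ∑ i ∈ Finset.range (p.natDegree + 1), p.coeff i * u (n + i) := by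
  rw [aeval_eq_sum_range]
  simp [sh_pow]

lemma root_of_gr {w : ℝ} (hw : 0 < w) (m : Multiset ℂ) : ∀ u : ℕ → ℂ,
    aeval (sh ℂ) (m.map fun l => X - C l).prod u = 0 → Gr w u → ∃ l ∈ m, ‖l‖ = w := by
  induction m using Multiset.induction_on with
  | empty =>
    intro u hu h
    have hu' : u = 0 := by simpa using hu
    exact absurd ⟨0, le_rfl, fun n => by simp [hu']⟩ (h.2 0 le_rfl hw)
  | cons l m ih =>
    intro u hu h
    by_cases hl : ‖l‖ = w
    · exact ⟨l, Multiset.mem_cons_self _ _, hl⟩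
    · rw [Multiset.map_cons, Multiset.prod_cons, mul_comm, map_mul, Module.End.mul_apply] at hu
      have e : aeval (sh ℂ) (X - C l) u = fun n => u (n + 1) - l * u n := by
        funext n
        simp [sh, LinearMap.funLeft_apply]
      rw [e] at hu
      obtain ⟨k, hk, hk'⟩ := ih _ hu (h.step hw hl)
      exact ⟨k, Multiset.mem_cons_of_mem hk, hk'⟩

lemma integral_of_monic {w : ℝ} (hw : 0 < w) {u : ℕ → ℤ} (h : Gr w fun n => (u n : ℂ))
    {p : ℤ[X]} (hp : p.Monic) (hu : aeval (sh ℤ) p u = 0) : IsIntegral ℤ w := by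
  have hp' := hp.map (algebraMap ℤ ℂ)
  have h1 : aeval (sh ℂ) (p.map (algebraMap ℤ ℂ)) (fun n => (u n : ℂ)) = 0 := by
    funext n
    have h2 := congrArg (fun z : ℤ => (z : ℂ)) (congrFun hu n)
    rw [aeval_sh] at h2 ⊢
    rw [hp.natDegree_map]
    simpa using h2
  rw [(IsAlgClosed.splits _).eq_prod_roots_of_monic hp'] at h1
  obtain ⟨l, hl, hl'⟩ := root_of_gr hw _ _ h1 h
  have h3 : IsIntegral ℤ l := ⟨p, hp, by
    have := (mem_roots hp'.ne_zero).1 hl
    rwa [IsRoot.def, eval_map] at this⟩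
  have h4 : IsIntegral ℤ ((starRingEnd ℂ) l) := h3.map (starRingEnd ℂ).toIntAlgHom
  have h5 : IsIntegral ℤ ((algebraMap ℝ ℂ w) ^ 2) := by
    have := h3.mul h4
    rw [Complex.mul_conj, Complex.normSq_eq_norm_sq, hl'] at this
    simpa using this
  exact (isIntegral_algebraMap_iff (algebraMap ℝ ℂ).injective).1 (IsIntegral.of_pow two_pos h5)

/-- integer sequences that satisfy a complex linear recurrence -/
def sol (q : ℂ[X]) : Submodule ℤ (ℕ → ℤ) where
  carrier := {v | ∀ n, ∑ i ∈ Finset.range (q.natDegree + 1), q.coeff i * (v (n + i) : ℂ) = 0}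
  zero_mem' := fun n => by simp
  add_mem' := fun {a b} ha hb n => by
    have := congrArg₂ (· + ·) (ha n) (hb n)
    simpa [mul_add, Finset.sum_add_distrib] using this
  smul_mem' := fun c a ha n => by
    have := congrArg ((c : ℂ) * ·) (ha n)
    simpa [Finset.mul_sum, mul_left_comm] using this

lemma sol_finite {q : ℂ[X]} (hq : q ≠ 0) : Module.Finite ℤ (sol q) := by
  let φ : sol q →ₗ[ℤ] (Fin q.natDegree → ℤ) :=
    (LinearMap.funLeft ℤ ℤ Fin.val).comp (sol q).subtype
  refine Module.Finite.of_injective φ ((injective_iff_map_eq_zero φ).2 fun v hv => ?_)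
  have key : ∀ n, v.1 n = 0 := by
    intro n
    induction n using Nat.strong_induction_on with
    | _ n ih =>
      rcases lt_or_ge n q.natDegree with hn | hn
      · exact congrFun hv ⟨n, hn⟩
      · have h1 := v.2 (n - q.natDegree)
        rw [Finset.sum_range_succ, Finset.sum_eq_zero, zero_add, Nat.sub_add_cancel hn] at h1
        · have h2 := (mul_eq_zero.1 h1).resolve_left (leadingCoeff_ne_zero.2 hq)
          exact_mod_cast h2
        · intro i hi
          rw [ih _ (by have := Finset.mem_range.1 hi; omega)]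
          simp
  exact Subtype.ext (funext key)

lemma integral_of_sol {w : ℝ} (hw : 0 < w) {u : ℕ → ℤ} (h : Gr w fun n => (u n : ℂ))
    {q : ℂ[X]} (hq : q ≠ 0) (hu : u ∈ sol q) : IsIntegral ℤ w := by
  have := sol_finite hq
  have hs : ∀ v ∈ sol q, sh ℤ v ∈ sol q := fun v hv n => by
    have := hv (n + 1)
    simpa [sh, LinearMap.funLeft_apply, add_right_comm n 1] using this
  obtain ⟨p, hp, h0⟩ := LinearMap.exists_monic_and_aeval_eq_zero ℤ ((sh ℤ).restrict hs)
  refine integral_of_monic hw h hp ?_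
  have h1 := congrArg (fun f : Module.End ℤ (sol q) => (f ⟨u, hu⟩).1) h0
  rw [aeval_eq_sum_range] at h1 ⊢
  simpa [Module.End.pow_restrict _ hs, LinearMap.restrict_apply] using h1

theorem integral_of_rational {w : ℝ} (hw : 0 < w) {u : ℕ → ℤ} (h : Gr w fun n => (u (n + 1) : ℂ))
    {P Q : ℂ[X]} (hQ : Q ≠ 0)
    (e : (Q : PowerSeries ℂ) * PowerSeries.mk (fun n => (u n : ℂ)) = (P : PowerSeries ℂ)) :
    IsIntegral ℤ w := by
  refine integral_of_sol hw (u := fun n => u (n + P.natDegree + 1)) (h.shift hw P.natDegree)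
    (q := Q.reverse) (fun h0 => hQ (reverse_eq_zero.1 h0)) fun n => ?_
  have h1 := congrArg (PowerSeries.coeff (n + P.natDegree + 1 + Q.natDegree)) e
  rw [Polynomial.coeff_coe, coeff_eq_zero_of_natDegree_lt (by omega), PowerSeries.coeff_mul,
    Finset.Nat.sum_antidiagonal_eq_sum_range_succ_mk] at h1
  simp only [Polynomial.coeff_coe, PowerSeries.coeff_mk] at h1
  have h2 : ∑ i ∈ Finset.range (Q.natDegree + 1),
      Q.coeff i * (u (n + P.natDegree + 1 + Q.natDegree - i) : ℂ) = 0 := by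
    rw [← h1]
    refine Finset.sum_subset (Finset.range_subset_range.2 (by omega)) fun i _ hi => ?_
    rw [coeff_eq_zero_of_natDegree_lt (by simpa using hi), zero_mul]
  rw [← Finset.sum_range_reflect] at h2
  rw [← h2]
  have h3 : Q.reverse.natDegree ≤ Q.natDegree := reverse_natDegree_le Q
  refine (Finset.sum_subset (Finset.range_subset_range.2 (by omega)) fun i _ hi => ?_).trans
    (Finset.sum_congr rfl fun i hi => ?_)
  · rw [coeff_eq_zero_of_natDegree_lt (by simpa using hi), zero_mul]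
  · have hi' : i ≤ Q.natDegree := by simpa [Nat.lt_succ_iff] using hi
    rw [coeff_reverse, revAt_le hi']
    have e1 : Q.natDegree + 1 - 1 - i = Q.natDegree - i := by omega
    have e2 : n + P.natDegree + 1 + Q.natDegree - (Q.natDegree - i) = n + i + P.natDegree + 1 := by
      omega
    rw [e1, e2]

end Pool.Agent.MP_e0ec03_al.NR
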